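import Pool.Agent.DK.FINK

/-!
# Dimension of the spaces spanned by odd zeta values over number fields

There are absolute constants `c, C, x0` such that for every real number field `K`, of degree
`δ = [K : ℚ]`, and all integers `x ≥ x0` and `W` with `C x^(3/4) (δ log x)^(1/4) ≤ W ≤ x`, the
`K`-linear span of the numbers `ζ(i)`, `i` odd, `x < i ≤ x + W`, has dimension at least
`c W^(5/3) / (x (δ log x)^(2/3))` over `K`.
-/

theorem Pool.Agent.Results.MP_c2395a_nt.DimensionFields.result :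
    ∃ c C x0 : ℝ, 0 < c ∧ 0 < C ∧ ∀ (K : IntermediateField ℚ ℝ) [FiniteDimensional ℚ K] (x W : ℕ),
      x0 ≤ x →
      C * (x : ℝ) ^ (3 / 4 : ℝ) * (Module.finrank ℚ K * Real.log x) ^ (1 / 4 : ℝ) ≤ W → W ≤ x →
      c * (W : ℝ) ^ (5 / 3 : ℝ) / ((x : ℝ) * (Module.finrank ℚ K * Real.log x) ^ (2 / 3 : ℝ)) ≤
        (Module.finrank K (Submodule.span K
          {y : ℝ | ∃ i : ℕ, Odd i ∧ x < i ∧ i ≤ x + W ∧ y = ∑' n : ℕ, 1 / ((n : ℝ) + 1) ^ i}) : ℝ) :=
  Pool.Agent.DK.dk_main
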