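import Pool.Agent.D4.Main
import Pool.Agent.OddZeta.ZetaTail

/-!
# `1, x, ζ(j), ζ(k)` are linearly independent over `ℚ` for some odd `j ≤ 9` and `k ≤ 49`

For every irrational real number `x`.  If this failed for some `x`, then by the case of `ζ(j)`
(`Pool/Agent/Z9`) all the values `ζ(3), ζ(5), …, ζ(49)` would be of the form `α + β θ + γ θ'` with
rational `α, β, γ`, where `θ, θ'` are the first two values (in the order `ζ(3), ζ(5), …`) such that
`1, θ, θ'` are linearly independent over `ℚ`.  For a large prime `p` the mixed determinant whose rows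
are the series `∑_{t ≥ 1} w(t) Y^i Y^j`, for very-well-poised `w` with poles of order fifty, and the
two families of rows `∑_k β_k ρ_{2 k + 1}(Y^i Y^j)` and `∑_k γ_k ρ_{2 k + 1}(Y^i Y^j)` of their
coefficients, would be a nonzero rational number violating the product formula.
-/

namespace Pool.Agent.Results.MP_c2395a_nt.FourIndependent

open Pool.Agent.Z5

theorem zeta_eq_zt {s : ℕ} (hs : 1 < s) : riemannZeta (s : ℂ) = ((zt s : ℝ) : ℂ) := by
  rw [zeta_nat_eq_tsum_of_gt_one hs, zt, Complex.ofReal_tsum]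
  rw [tsum_eq_zero_add' ]
  · have h0 : (1 : ℂ) / ((0 : ℕ) : ℂ) ^ s = 0 := by
      rw [Nat.cast_zero, zero_pow (by omega), div_zero]
    rw [h0, zero_add]
    refine tsum_congr fun n => ?_
    push_cast
    ring
  · have h1 := (Complex.summable_one_div_nat_cpow (p := (s : ℂ))).2 (by
      rw [Complex.natCast_re]; exact_mod_cast hs)
    have h2 := (summable_nat_add_iff (f := fun n : ℕ => 1 / (n : ℂ) ^ (s : ℂ)) 1).2 h1
    refine h2.congr fun n => ?_
    rw [Complex.cpow_natCast]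

/-- For every irrational real number `x` there are odd integers `j, k` with `3 ≤ j ≤ 9` and
`3 ≤ k ≤ 49` such that `1, x, ζ(j), ζ(k)` are linearly independent over `ℚ`. -/
theorem result (x : ℝ) (hx : Irrational x) : ∃ j k : ℕ, Odd j ∧ 3 ≤ j ∧ j ≤ 9 ∧ Odd k ∧ 3 ≤ k ∧
    k ≤ 49 ∧ LinearIndependent ℚ ![(1 : ℂ), (x : ℂ), riemannZeta j, riemannZeta k] := by
  obtain ⟨i, hi, h1⟩ := Pool.Agent.Z9.exists_not_mem x
  obtain ⟨l, hl, h2⟩ := Pool.Agent.D4.exists_not_mem2 x (zt (2 * i + 1))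
  have hi' := Finset.mem_Icc.1 hi
  have hl' := Finset.mem_Icc.1 hl
  refine ⟨2 * i + 1, 2 * l + 1, ⟨i, rfl⟩, by omega, by omega, ⟨l, rfl⟩, by omega, by omega, ?_⟩
  rw [zeta_eq_zt (by omega : 1 < 2 * i + 1), zeta_eq_zt (by omega : 1 < 2 * l + 1),
    Fintype.linearIndependent_iff]
  intro g hg
  rw [Fin.sum_univ_four] at hg
  have e0 : ![(1 : ℂ), (x : ℂ), ((zt (2 * i + 1) : ℝ) : ℂ), ((zt (2 * l + 1) : ℝ) : ℂ)] 0 = 1 := rfl
  have e1 : ![(1 : ℂ), (x : ℂ), ((zt (2 * i + 1) : ℝ) : ℂ), ((zt (2 * l + 1) : ℝ) : ℂ)] 1 =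
      (x : ℂ) := rfl
  have e2 : ![(1 : ℂ), (x : ℂ), ((zt (2 * i + 1) : ℝ) : ℂ), ((zt (2 * l + 1) : ℝ) : ℂ)] 2 =
      ((zt (2 * i + 1) : ℝ) : ℂ) := rfl
  have e3 : ![(1 : ℂ), (x : ℂ), ((zt (2 * i + 1) : ℝ) : ℂ), ((zt (2 * l + 1) : ℝ) : ℂ)] 3 =
      ((zt (2 * l + 1) : ℝ) : ℂ) := rfl
  rw [e0, e1, e2, e3] at hg
  simp only [Rat.smul_def, mul_one] at hg
  have hr : (g 0 : ℝ) + g 1 * x + g 2 * zt (2 * i + 1) + g 3 * zt (2 * l + 1) = 0 := by
    exact_mod_cast hg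
  have h3 : g 3 = 0 := by
    by_contra h3
    have h3' : ((g 3 : ℚ) : ℝ) ≠ 0 := by exact_mod_cast h3
    apply h2 (-(g 0 / g 3)) (-(g 1 / g 3)) (-(g 2 / g 3))
    push_cast
    field_simp
    linarith
  rw [h3, Rat.cast_zero, zero_mul, add_zero] at hr
  have h4 : g 2 = 0 := by
    by_contra h4
    have h4' : ((g 2 : ℚ) : ℝ) ≠ 0 := by exact_mod_cast h4
    apply h1 (-(g 0 / g 2)) (-(g 1 / g 2))
    push_cast
    field_simp
    linarith
  rw [h4, Rat.cast_zero, zero_mul, add_zero] at hr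
  have h5 : g 1 = 0 := by
    by_contra h5
    have h5' : ((g 1 : ℚ) : ℝ) ≠ 0 := by exact_mod_cast h5
    apply hx
    refine ⟨-(g 0 / g 1), ?_⟩
    push_cast
    field_simp
    linarith
  rw [h5, Rat.cast_zero, zero_mul, add_zero] at hr
  intro m
  fin_cases m
  · exact_mod_cast hr
  · exact h5
  · exact h4
  · exact h3

end Pool.Agent.Results.MP_c2395a_nt.FourIndependent
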